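import Mathlib

set_option autoImplicit false

/-!
# A graph of maximum degree 5 without a rich 8-flow

In the triangle whose sides have multiplicities 3, 2, 2 any two edges are adjacent, so a rich
8-flow uses every absolute value `1, …, 7` exactly once; and then an edge of the side of
multiplicity 3 never has absolute value 5.  We replace every edge of the two sides of multiplicity 2
by two edges leading to the ends of an edge of multiplicity 3 (which is deleted) of a new copy of
the same graph.  The two new edges form a 2-edge-cut, so they carry the same value, and this is the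
value of the deleted edge in the copy.  Hence no edge can have absolute value 5.
-/

namespace Pool.Agent.Results.MP_9610b2_co.DeltaFive

open Finset

/-- A finite graph without loops which may have parallel edges.  Every edge has a reference
orientation from `src e` to `tgt e`. -/
structure Multigraph (V E : Type) where
  /-- the tail of an edge -/
  src : E → V
  /-- the head of an edge -/
  tgt : E → V
  /-- there are no loops -/
  ne : ∀ e, src e ≠ tgt e

namespace Multigraph

variable {V E : Type} [Fintype V] [Fintype E] [DecidableEq V] [DecidableEq E]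
  (G : Multigraph V E)

/-- Two distinct edges are adjacent if they share at least one end vertex. -/
def Adjacent (e f : E) : Prop :=
  e ≠ f ∧ (G.src e = G.src f ∨ G.src e = G.tgt f ∨ G.tgt e = G.src f ∨ G.tgt e = G.tgt f)

/-- The degree of a vertex counts parallel edges with multiplicity. -/
def degree (v : V) : ℕ := (univ.filter fun e => G.src e = v ∨ G.tgt e = v).card

/-- The simple graph of the pairs of vertices which are joined by an edge that is not in `F`. -/
def without (F : Set E) : SimpleGraph V :=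
  SimpleGraph.fromRel fun u v => ∃ e, e ∉ F ∧ G.src e = u ∧ G.tgt e = v

/-- The number of connected components after the deletion of the edges in `F`. -/
noncomputable def components (F : Set E) : ℕ := Nat.card (G.without F).ConnectedComponent

/-- The deletion of the edges in `F` increases the number of connected components. -/
def Cuts (F : Set E) : Prop := G.components ∅ < G.components F

/-- `G` is bridgeless and no 2-edge-cut consists of two edges with a common end vertex. -/
def RichFlowAdmissible : Prop :=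
  (∀ e, ¬ G.Cuts {e}) ∧ ∀ e f, G.Adjacent e f → ¬ G.Cuts {e, f}

/-- A rich `k`-flow: a nowhere-zero `k`-flow in which adjacent edges have different absolute
values.  (Reversing an edge and negating its value gives the same flow, so the values are taken with
respect to the reference orientation.) -/
def IsRichFlow (k : ℕ) (φ : E → ℤ) : Prop :=
  (∀ v, ∑ e ∈ univ.filter (fun e => G.tgt e = v), φ e =
    ∑ e ∈ univ.filter (fun e => G.src e = v), φ e) ∧
  (∀ e, φ e ≠ 0 ∧ |φ e| < k) ∧ ∀ e f, G.Adjacent e f → |φ e| ≠ |φ f|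

end Multigraph

/-! ### The triangle with multiplicities 3, 2, 2 -/

/-- The condition of the lemma below for given integers. -/
def good (a₁ a₂ b₁ b₂ b₃ c₁ c₂ : ℤ) : Bool :=
  let l := [a₁.natAbs, a₂.natAbs, b₁.natAbs, b₂.natAbs, b₃.natAbs, c₁.natAbs, c₂.natAbs]
  l.all (fun x => x != 0 && decide (x ≤ 7)) && decide l.Nodup

/-- All integers from `-7` to `7`. -/
def rng : List ℤ := [-7, -6, -5, -4, -3, -2, -1, 0, 1, 2, 3, 4, 5, 6, 7]

lemma mem_rng {x : ℤ} (h : |x| < 8) : x ∈ rng := by
  rw [abs_lt] at h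
  have h1 : -7 ≤ x := by omega
  have h2 : x ≤ 7 := by omega
  unfold rng
  simp only [List.mem_cons, List.not_mem_nil, or_false]
  omega

/-- The computation. -/
lemma check : ([-5, 5] : List ℤ).all (fun b₁ => rng.all fun b₂ =>
    (b₂ == 0) || (b₂.natAbs == 5) || rng.all fun a₁ =>
    (a₁ == 0) || (a₁.natAbs == 5) || (a₁.natAbs == b₂.natAbs) || rng.all fun a₂ =>
    (a₂ == 0) || (a₂.natAbs == 5) || (a₂.natAbs == b₂.natAbs) || (a₂.natAbs == a₁.natAbs) ||
      rng.all fun c₁ =>
    !(good a₁ a₂ b₁ b₂ (a₁ + a₂ - b₁ - b₂) c₁ (a₁ + a₂ - c₁))) = true := by decide +kernel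

/-- In a rich 8-flow of the triangle with multiplicities 3, 2, 2 no edge of the side of multiplicity
3 has absolute value 5. -/
lemma five {a₁ a₂ b₁ b₂ b₃ c₁ c₂ : ℤ} (ha : a₁ + a₂ = b₁ + b₂ + b₃) (hc : c₁ + c₂ = b₁ + b₂ + b₃)
    (hr : ∀ x ∈ [a₁, a₂, b₁, b₂, b₃, c₁, c₂], x ≠ 0 ∧ |x| < 8)
    (hn : ([a₁, a₂, b₁, b₂, b₃, c₁, c₂].map Int.natAbs).Nodup) : b₁.natAbs ≠ 5 := by
  intro h5
  have hb3 : a₁ + a₂ - b₁ - b₂ = b₃ := by omega
  have hc2 : a₁ + a₂ - c₁ = c₂ := by omega
  have hr' := fun x hx => mem_rng (hr x hx).2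
  have h1 := check
  rw [List.all_eq_true] at h1
  have h2 := h1 b₁ (by simp only [List.mem_cons, List.not_mem_nil, or_false]; omega)
  rw [List.all_eq_true] at h2
  have h3 := h2 b₂ (hr' _ (by simp))
  have e1 := (hr b₂ (by simp)).1
  have e2 := (hr a₁ (by simp)).1
  have e3 := (hr a₂ (by simp)).1
  have hn' := hn
  simp only [List.map_cons, List.map_nil, List.nodup_cons, List.mem_cons, List.not_mem_nil,
    or_false, not_or, List.nodup_nil, and_true, not_false_eq_true] at hn'
  obtain ⟨⟨n1, n2, n3, -, -, -⟩, ⟨n4, n5, -, -, -⟩, ⟨n6, -, -, -⟩, -⟩ := hn'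
  simp only [Bool.or_eq_true, beq_iff_eq] at h3
  rcases h3 with (h3 | h3) | h3
  · exact e1 h3
  · omega
  rw [List.all_eq_true] at h3
  have h4 := h3 a₁ (hr' _ (by simp))
  simp only [Bool.or_eq_true, beq_iff_eq] at h4
  rcases h4 with ((h4 | h4) | h4) | h4
  · exact e2 h4
  · omega
  · omega
  rw [List.all_eq_true] at h4
  have h5 := h4 a₂ (hr' _ (by simp))
  simp only [Bool.or_eq_true, beq_iff_eq] at h5
  rcases h5 with (((h5 | h5) | h5) | h5) | h5
  · exact e3 h5
  · omega
  · omega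
  · omega
  rw [List.all_eq_true] at h5
  have h6 := h5 c₁ (hr' _ (by simp))
  rw [hb3, hc2] at h6
  have h7 : good a₁ a₂ b₁ b₂ b₃ c₁ c₂ = true := by
    unfold good
    simp only [Bool.and_eq_true, List.all_eq_true, decide_eq_true_eq, bne_iff_ne, ne_eq]
    refine ⟨fun x hx => ?_, hn⟩
    rw [show [a₁.natAbs, a₂.natAbs, b₁.natAbs, b₂.natAbs, b₃.natAbs, c₁.natAbs, c₂.natAbs] =
      [a₁, a₂, b₁, b₂, b₃, c₁, c₂].map Int.natAbs from rfl, List.mem_map] at hx
    obtain ⟨y, hy, rfl⟩ := hx
    have h8 := hr y hy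
    rw [abs_lt] at h8
    omega
  rw [h7] at h6
  cases h6

/-- In a rich 8-flow of the triangle with multiplicities 3, 2, 2 some edge of the sides of
multiplicity 2 has absolute value 5. -/
lemma exists_five {a₁ a₂ b₁ b₂ b₃ c₁ c₂ : ℤ} (ha : a₁ + a₂ = b₁ + b₂ + b₃)
    (hc : c₁ + c₂ = b₁ + b₂ + b₃)
    (hr : ∀ x ∈ [a₁, a₂, b₁, b₂, b₃, c₁, c₂], x ≠ 0 ∧ |x| < 8)
    (hn : ([a₁, a₂, b₁, b₂, b₃, c₁, c₂].map Int.natAbs).Nodup) :
    a₁.natAbs = 5 ∨ a₂.natAbs = 5 ∨ c₁.natAbs = 5 ∨ c₂.natAbs = 5 := by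
  have h1 := five ha hc hr hn
  have h2 : b₂.natAbs ≠ 5 := by
    refine five (a₁ := a₁) (a₂ := a₂) (b₁ := b₂) (b₂ := b₁) (b₃ := b₃) (c₁ := c₁) (c₂ := c₂)
      (by omega) (by omega) (fun x hx => hr x ?_) ?_
    · simp only [List.mem_cons, List.not_mem_nil, or_false] at hx ⊢; tauto
    · refine (List.Perm.nodup_iff (List.Perm.map _ ?_)).1 hn
      exact ((List.Perm.swap b₂ b₁ _).cons a₂).cons a₁
  have h3 : b₃.natAbs ≠ 5 := by
    refine five (a₁ := a₁) (a₂ := a₂) (b₁ := b₃) (b₂ := b₂) (b₃ := b₁) (c₁ := c₁) (c₂ := c₂)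
      (by omega) (by omega) (fun x hx => hr x ?_) ?_
    · simp only [List.mem_cons, List.not_mem_nil, or_false] at hx ⊢; tauto
    · refine (List.Perm.nodup_iff (List.Perm.map _ ?_)).1 hn
      refine (List.Perm.cons a₁ (List.Perm.cons a₂ ?_))
      refine List.Perm.trans (List.Perm.swap b₂ b₁ _) ?_
      refine List.Perm.trans (List.Perm.cons b₂ (List.Perm.swap b₃ b₁ _)) ?_
      exact List.Perm.swap b₃ b₂ _
  by_contra hno
  push Not at hno
  obtain ⟨m1, m2, m3, m4⟩ := hno
  have hsub : ([a₁, a₂, b₁, b₂, b₃, c₁, c₂].map Int.natAbs).toFinset ⊆ ({1, 2, 3, 4, 6, 7} : Finset ℕ) := by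
    intro x hx
    rw [List.mem_toFinset, List.mem_map] at hx
    obtain ⟨y, hy, rfl⟩ := hx
    have h8 := hr y hy
    rw [abs_lt] at h8
    have h9 : y.natAbs ≠ 5 := by
      simp only [List.mem_cons, List.not_mem_nil, or_false] at hy
      rcases hy with rfl | rfl | rfl | rfl | rfl | rfl | rfl <;> assumption
    simp only [Finset.mem_insert, Finset.mem_singleton]
    omega
  have hcard := Finset.card_le_card hsub
  rw [List.toFinset_card_of_nodup hn] at hcard
  have h6 : ({1, 2, 3, 4, 6, 7} : Finset ℕ).card = 6 := by decide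
  rw [h6] at hcard
  simp at hcard

/-! ### The graph -/

/-- Tails: the vertices are `X = 0`, `Y = 1`, `Z = 2` and `P i = 3 + 3 i`, `Q i = 4 + 3 i`,
`R i = 5 + 3 i` for `i < 4`. -/
def sN (e : ℕ) : ℕ :=
  if e < 3 then 2 else
    match (e - 3) % 8 with
    | 0 => if (e - 3) / 8 < 2 then 0 else 1
    | 1 => 4 + 3 * ((e - 3) / 8)
    | 2 => 3 + 3 * ((e - 3) / 8)
    | 3 => 3 + 3 * ((e - 3) / 8)
    | 4 => 3 + 3 * ((e - 3) / 8)
    | 5 => 3 + 3 * ((e - 3) / 8)
    | _ => 5 + 3 * ((e - 3) / 8)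

/-- Heads. -/
def tN (e : ℕ) : ℕ :=
  if e < 3 then 0 else
    match (e - 3) % 8 with
    | 0 => 3 + 3 * ((e - 3) / 8)
    | 1 => if (e - 3) / 8 < 2 then 1 else 2
    | 2 => 4 + 3 * ((e - 3) / 8)
    | 3 => 4 + 3 * ((e - 3) / 8)
    | 4 => 5 + 3 * ((e - 3) / 8)
    | 5 => 5 + 3 * ((e - 3) / 8)
    | _ => 4 + 3 * ((e - 3) / 8)

/-- The graph with 15 vertices and 35 edges. -/
def G : Multigraph (Fin 15) (Fin 35) where
  src e := Fin.ofNat 15 (sN e)
  tgt e := Fin.ofNat 15 (tN e)
  ne := by decide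

instance (e f : Fin 35) : Decidable (G.Adjacent e f) := by
  unfold Multigraph.Adjacent; infer_instance

/-- The edges of the `i`-th copy and the two edges which join it to the rest. -/
def ed (i : Fin 4) (r : Fin 8) : Fin 35 := ⟨3 + 8 * i + r, by omega⟩

/-- The vertex `P i`. -/
def vP (i : Fin 4) : Fin 15 := ⟨3 + 3 * i, by omega⟩

/-- The vertex `Q i`. -/
def vQ (i : Fin 4) : Fin 15 := ⟨4 + 3 * i, by omega⟩

/-- The vertex `R i`. -/
def vR (i : Fin 4) : Fin 15 := ⟨5 + 3 * i, by omega⟩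

lemma degree_le : ∀ v, G.degree v ≤ 5 := by
  unfold Multigraph.degree
  decide +kernel

lemma degree_zero : G.degree 0 = 5 := by
  unfold Multigraph.degree
  decide +kernel

section Flow

variable {φ : Fin 35 → ℤ}

lemma tP (i : Fin 4) : (univ.filter fun e => G.tgt e = vP i) = {ed i 0} := by
  revert i; decide +kernel
lemma sP (i : Fin 4) : (univ.filter fun e => G.src e = vP i) = {ed i 2, ed i 3, ed i 4, ed i 5} := by
  revert i; decide +kernel
lemma tQ (i : Fin 4) : (univ.filter fun e => G.tgt e = vQ i) = {ed i 2, ed i 3, ed i 6, ed i 7} := by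
  revert i; decide +kernel
lemma sQ (i : Fin 4) : (univ.filter fun e => G.src e = vQ i) = {ed i 1} := by
  revert i; decide +kernel
lemma tR (i : Fin 4) : (univ.filter fun e => G.tgt e = vR i) = {ed i 4, ed i 5} := by
  revert i; decide +kernel
lemma sR (i : Fin 4) : (univ.filter fun e => G.src e = vR i) = {ed i 6, ed i 7} := by
  revert i; decide +kernel
lemma tX : (univ.filter fun e => G.tgt e = 0) = {0, 1, 2} := by decide +kernel
lemma sX : (univ.filter fun e => G.src e = 0) = {ed 0 0, ed 1 0} := by decide +kernel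
lemma tY : (univ.filter fun e => G.tgt e = 1) = {ed 0 1, ed 1 1} := by decide +kernel
lemma sY : (univ.filter fun e => G.src e = 1) = {ed 2 0, ed 3 0} := by decide +kernel

lemma ed_inj (i : Fin 4) (r s : Fin 8) (h : r ≠ s) : ed i r ≠ ed i s := by
  intro e
  apply h
  simp only [ed, Fin.mk.injEq] at e
  omega

lemma sum2 (i : Fin 4) (r s : Fin 8) (h : r ≠ s) :
    ∑ e ∈ ({ed i r, ed i s} : Finset (Fin 35)), φ e = φ (ed i r) + φ (ed i s) :=
  Finset.sum_pair (ed_inj i r s h)

lemma sum4 (i : Fin 4) (r s t u : Fin 8) (h : [r, s, t, u].Nodup) :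
    ∑ e ∈ ({ed i r, ed i s, ed i t, ed i u} : Finset (Fin 35)), φ e =
      φ (ed i r) + φ (ed i s) + φ (ed i t) + φ (ed i u) := by
  simp only [List.nodup_cons, List.mem_cons, List.not_mem_nil, or_false, not_or, List.nodup_nil,
    and_true, not_false_eq_true] at h
  obtain ⟨⟨h1, h2, h3⟩, ⟨h4, h5⟩, h6⟩ := h
  rw [Finset.sum_insert, Finset.sum_insert, Finset.sum_pair (ed_inj i t u h6)]
  · ring
  · simp only [Finset.mem_insert, Finset.mem_singleton, not_or]
    exact ⟨ed_inj i s t h4, ed_inj i s u h5⟩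
  · simp only [Finset.mem_insert, Finset.mem_singleton, not_or]
    exact ⟨ed_inj i r s h1, ed_inj i r t h2, ed_inj i r u h3⟩

/-- Conservation in the `i`-th copy. -/
lemma cons_copy (h : G.IsRichFlow 8 φ) (i : Fin 4) :
    φ (ed i 0) = φ (ed i 2) + φ (ed i 3) + φ (ed i 4) + φ (ed i 5) ∧
    φ (ed i 2) + φ (ed i 3) + φ (ed i 6) + φ (ed i 7) = φ (ed i 1) ∧
    φ (ed i 4) + φ (ed i 5) = φ (ed i 6) + φ (ed i 7) := by
  have h1 := h.1 (vP i)
  have h2 := h.1 (vQ i)
  have h3 := h.1 (vR i)
  rw [tP, sP, sum4 i 2 3 4 5 (by decide), Finset.sum_singleton] at h1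
  rw [tQ, sQ, sum4 i 2 3 6 7 (by decide), Finset.sum_singleton] at h2
  rw [tR, sR, sum2 i 4 5 (by decide), sum2 i 6 7 (by decide)] at h3
  exact ⟨h1, h2, h3⟩

lemma ne_of_adj (h : G.IsRichFlow 8 φ) {e f : Fin 35} (hef : G.Adjacent e f) :
    (φ e).natAbs ≠ (φ f).natAbs := by
  intro h1
  apply h.2.2 e f hef
  rw [Int.abs_eq_natAbs, Int.abs_eq_natAbs, h1]

lemma range (h : G.IsRichFlow 8 φ) (e : Fin 35) : φ e ≠ 0 ∧ |φ e| < 8 := h.2.1 e

/-- The value on the two edges which join the `i`-th copy to the rest does not have absolute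
value 5. -/
lemma copy_ne (h : G.IsRichFlow 8 φ) (i : Fin 4) : (φ (ed i 0)).natAbs ≠ 5 := by
  obtain ⟨h1, h2, h3⟩ := cons_copy h i
  have h01 : φ (ed i 1) = φ (ed i 0) := by omega
  have adj : ∀ r s : Fin 8, G.Adjacent (ed i r) (ed i s) → (φ (ed i r)).natAbs ≠ (φ (ed i s)).natAbs :=
    fun r s => ne_of_adj h
  have hadj : ∀ (i : Fin 4), G.Adjacent (ed i 4) (ed i 5) ∧ G.Adjacent (ed i 4) (ed i 0) ∧
      G.Adjacent (ed i 4) (ed i 2) ∧ G.Adjacent (ed i 4) (ed i 3) ∧ G.Adjacent (ed i 4) (ed i 6) ∧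
      G.Adjacent (ed i 4) (ed i 7) ∧ G.Adjacent (ed i 5) (ed i 0) ∧ G.Adjacent (ed i 5) (ed i 2) ∧
      G.Adjacent (ed i 5) (ed i 3) ∧ G.Adjacent (ed i 5) (ed i 6) ∧ G.Adjacent (ed i 5) (ed i 7) ∧
      G.Adjacent (ed i 0) (ed i 2) ∧ G.Adjacent (ed i 0) (ed i 3) ∧ G.Adjacent (ed i 1) (ed i 6) ∧
      G.Adjacent (ed i 1) (ed i 7) ∧ G.Adjacent (ed i 2) (ed i 3) ∧ G.Adjacent (ed i 2) (ed i 6) ∧
      G.Adjacent (ed i 2) (ed i 7) ∧ G.Adjacent (ed i 3) (ed i 6) ∧ G.Adjacent (ed i 3) (ed i 7) ∧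
      G.Adjacent (ed i 6) (ed i 7) := by decide +kernel
  obtain ⟨a1, a2, a3, a4, a5, a6, a7, a8, a9, a10, a11, a12, a13, a14, a15, a16, a17, a18, a19,
    a20, a21⟩ := hadj i
  have m14 := adj _ _ a14
  have m15 := adj _ _ a15
  rw [h01] at m14 m15
  refine five (a₁ := φ (ed i 4)) (a₂ := φ (ed i 5)) (b₁ := φ (ed i 0)) (b₂ := -φ (ed i 2))
    (b₃ := -φ (ed i 3)) (c₁ := φ (ed i 6)) (c₂ := φ (ed i 7)) (by omega) (by omega) ?_ ?_
  · intro x hx
    simp only [List.mem_cons, List.not_mem_nil, or_false] at hx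
    rcases hx with rfl | rfl | rfl | rfl | rfl | rfl | rfl
    · exact range h _
    · exact range h _
    · exact range h _
    · rw [abs_neg, neg_ne_zero]; exact range h _
    · rw [abs_neg, neg_ne_zero]; exact range h _
    · exact range h _
    · exact range h _
  · simp only [List.map_cons, List.map_nil, List.nodup_cons, List.mem_cons, List.not_mem_nil,
      or_false, not_or, List.nodup_nil, and_true, not_false_eq_true, Int.natAbs_neg]
    exact ⟨⟨adj _ _ a1, adj _ _ a2, adj _ _ a3, adj _ _ a4, adj _ _ a5, adj _ _ a6⟩,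
      ⟨adj _ _ a7, adj _ _ a8, adj _ _ a9, adj _ _ a10, adj _ _ a11⟩,
      ⟨adj _ _ a12, adj _ _ a13, m14, m15⟩, ⟨adj _ _ a16, adj _ _ a17, adj _ _ a18⟩,
      ⟨adj _ _ a19, adj _ _ a20⟩, adj _ _ a21⟩

/-- There is no rich 8-flow. -/
lemma no_flow (h : G.IsRichFlow 8 φ) : False := by
  have hc : ∀ i, φ (ed i 1) = φ (ed i 0) := fun i => by
    obtain ⟨h1, h2, h3⟩ := cons_copy h i
    omega
  have hX := h.1 0
  have hY := h.1 1
  rw [tX, sX, Finset.sum_insert (by decide), Finset.sum_pair (by decide),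
    Finset.sum_pair (by decide)] at hX
  rw [tY, sY, Finset.sum_pair (by decide), Finset.sum_pair (by decide), hc, hc] at hY
  have adj : ∀ e f : Fin 35, G.Adjacent e f → (φ e).natAbs ≠ (φ f).natAbs :=
    fun r s => ne_of_adj h
  have m1 := adj (ed 0 1) (ed 2 0) (by decide +kernel)
  have m2 := adj (ed 0 1) (ed 3 0) (by decide +kernel)
  have m3 := adj (ed 1 1) (ed 2 0) (by decide +kernel)
  have m4 := adj (ed 1 1) (ed 3 0) (by decide +kernel)
  have m5 := (adj (ed 2 1) 0 (by decide +kernel)).symm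
  have m6 := (adj (ed 2 1) 1 (by decide +kernel)).symm
  have m7 := (adj (ed 2 1) 2 (by decide +kernel)).symm
  have m8 := (adj (ed 3 1) 0 (by decide +kernel)).symm
  have m9 := (adj (ed 3 1) 1 (by decide +kernel)).symm
  have m10 := (adj (ed 3 1) 2 (by decide +kernel)).symm
  rw [hc] at m1 m2 m3 m4 m5 m6 m7 m8 m9 m10
  have h5 := exists_five (a₁ := φ (ed 0 0)) (a₂ := φ (ed 1 0)) (b₁ := φ 0) (b₂ := φ 1)
    (b₃ := φ 2) (c₁ := φ (ed 2 0)) (c₂ := φ (ed 3 0)) (by omega) (by omega) ?_ ?_
  · have n0 := copy_ne h 0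
    have n1 := copy_ne h 1
    have n2 := copy_ne h 2
    have n3 := copy_ne h 3
    tauto
  · intro x hx
    simp only [List.mem_cons, List.not_mem_nil, or_false] at hx
    rcases hx with rfl | rfl | rfl | rfl | rfl | rfl | rfl <;> exact range h _
  · simp only [List.map_cons, List.map_nil, List.nodup_cons, List.mem_cons, List.not_mem_nil,
      or_false, not_or, List.nodup_nil, and_true, not_false_eq_true]
    exact ⟨⟨adj _ _ (by decide +kernel), adj _ _ (by decide +kernel), adj _ _ (by decide +kernel),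
      adj _ _ (by decide +kernel), m1, m2⟩, ⟨adj _ _ (by decide +kernel),
      adj _ _ (by decide +kernel), adj _ _ (by decide +kernel), m3, m4⟩,
      ⟨adj _ _ (by decide +kernel), adj _ _ (by decide +kernel), m5, m8⟩,
      ⟨adj _ _ (by decide +kernel), m6, m9⟩, ⟨m7, m10⟩, adj _ _ (by decide +kernel)⟩

end Flow

/-! ### Admissibility -/

/-- Use the edge `g` (unless it is deleted) to enlarge a set of vertices (given as a bit mask). -/
def stepE (e f : Fin 35) (s : ℕ) (g : Fin 35) : ℕ :=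
  if g = e ∨ g = f then s
  else if s.testBit (G.src g) then s ||| (2 ^ (G.tgt g : ℕ))
  else if s.testBit (G.tgt g) then s ||| (2 ^ (G.src g : ℕ))
  else s

/-- Use all the edges once. -/
def pass (e f : Fin 35) (s : ℕ) : ℕ := (List.finRange 35).foldl (stepE e f) s

/-- All vertices are reached. -/
def reach (e f : Fin 35) : Bool :=
  pass e f (pass e f (pass e f (pass e f 1))) == 2 ^ 15 - 1

lemma reach_all : ∀ e f : Fin 35, G.Adjacent e f ∨ e = f → reach e f = true := by decide +kernel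

/-- All vertices in the set are joined to `0` by the edges which are not deleted. -/
def Inv (e f : Fin 35) (s : ℕ) : Prop :=
  ∀ v : Fin 15, s.testBit v = true → (G.without {e, f}).Reachable 0 v

lemma adj_without {e f g : Fin 35} (h : ¬ (g = e ∨ g = f)) :
    (G.without {e, f}).Adj (G.src g) (G.tgt g) := by
  unfold Multigraph.without
  rw [SimpleGraph.fromRel_adj]
  exact ⟨G.ne g, Or.inl ⟨g, by simpa using h, rfl, rfl⟩⟩

lemma inv_stepE {e f : Fin 35} {s : ℕ} (hs : Inv e f s) (g : Fin 35) : Inv e f (stepE e f s g) := by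
  unfold stepE
  split_ifs with h1 h2 h3
  · exact hs
  · intro v hv
    rw [Nat.testBit_or, Nat.testBit_two_pow, Bool.or_eq_true, decide_eq_true_eq] at hv
    rcases hv with hv | hv
    · exact hs v hv
    · obtain rfl : G.tgt g = v := Fin.ext hv
      exact (hs _ h2).trans (adj_without h1).reachable
  · intro v hv
    rw [Nat.testBit_or, Nat.testBit_two_pow, Bool.or_eq_true, decide_eq_true_eq] at hv
    rcases hv with hv | hv
    · exact hs v hv
    · obtain rfl : G.src g = v := Fin.ext hv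
      exact (hs _ h3).trans (adj_without h1).symm.reachable
  · exact hs

lemma inv_pass {e f : Fin 35} {s : ℕ} (hs : Inv e f s) : Inv e f (pass e f s) := by
  unfold pass
  generalize List.finRange 35 = l
  induction l generalizing s with
  | nil => exact hs
  | cons g l ih => exact ih (inv_stepE hs g)

lemma inv_one (e f : Fin 35) : Inv e f 1 := by
  intro v hv
  obtain rfl : v = 0 := by
    revert v; decide
  exact SimpleGraph.Reachable.refl _

lemma not_cuts {e f : Fin 35} (h : G.Adjacent e f ∨ e = f) : ¬ G.Cuts {e, f} := by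
  have h1 := reach_all e f h
  unfold reach at h1
  rw [beq_iff_eq] at h1
  have h2 : Inv e f (2 ^ 15 - 1) := by
    rw [← h1]
    exact inv_pass (inv_pass (inv_pass (inv_pass (inv_one e f))))
  have h3 : ∀ v : Fin 15, (G.without {e, f}).Reachable 0 v := by
    intro v
    apply h2
    clear * -
    revert v; decide +kernel
  have h4 : (G.without {e, f}).Preconnected := fun u v => (h3 u).symm.trans (h3 v)
  have h5 : G.components {e, f} ≤ 1 := by
    unfold Multigraph.components
    have := h4.subsingleton_connectedComponent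
    exact Finite.card_le_one_iff_subsingleton.2 this
  have h6 : 0 < G.components ∅ := by
    unfold Multigraph.components
    exact Nat.card_pos
  unfold Multigraph.Cuts
  omega

lemma admissible : G.RichFlowAdmissible := by
  refine ⟨fun e => ?_, fun e f h => not_cuts (Or.inl h)⟩
  have h := not_cuts (e := e) (f := e) (Or.inr rfl)
  rwa [Set.pair_eq_singleton] at h

/-- There is a rich flow admissible graph of maximum degree `5` which has no rich
`⌊1.5 * 5 + 1⌋`-flow. -/
theorem result : ∃ (V E : Type) (_ : Fintype V) (_ : Fintype E) (_ : DecidableEq V)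
    (_ : DecidableEq E) (G : Multigraph V E), G.RichFlowAdmissible ∧
      (∀ v, G.degree v ≤ 5) ∧ (∃ v, G.degree v = 5) ∧
      ¬ ∃ φ : E → ℤ, G.IsRichFlow ⌊(1.5 : ℚ) * 5 + 1⌋₊ φ := by
  refine ⟨Fin 15, Fin 35, inferInstance, inferInstance, inferInstance, inferInstance, G,
    admissible, degree_le, ⟨0, degree_zero⟩, ?_⟩
  rintro ⟨φ, h⟩
  have h8 : ⌊(1.5 : ℚ) * 5 + 1⌋₊ = 8 := by
    rw [Nat.floor_eq_iff (by norm_num)]
    norm_num
  rw [h8] at h
  exact no_flow h

end Pool.Agent.Results.MP_9610b2_co.DeltaFive
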